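import Pool.Agent.Helper16.CZ.Stmts

open Finset Filter MeasureTheory Topology
open scoped ComplexConjugate InnerProductSpace

namespace Pool.Agent.Helper16.CZ

open Pool.Agent.Helper16.AZ (T E Op mm ST_VDH ST_FPV ST_TLR)
open Pool.Agent.Helper16.BZ (EQ GR PD)
open Pool.Agent.Helper16.MD (MS PB Am RW Rich)
open UnitAddTorus (mFourier)

theorem tho_psi_cont {r : ℕ} {ψ : Fin r → T r → ℝ} {L : ℝ} (hL0 : 0 ≤ L)
    (hL : ∀ i x y, |ψ i x - ψ i y| ≤ L * dist x y) (i : Fin r) : Continuous (ψ i) := by
  have h : LipschitzWith ⟨L, hL0⟩ (ψ i) := by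
    apply LipschitzWith.of_dist_le_mul
    intro x y
    rw [Real.dist_eq]
    exact hL i x y
  exact h.continuous

theorem tho_cont {r : ℕ} {lev : Fin r → ℕ} {D : Matrix (Fin r) (Fin r) ℤ}
    {ψ : Fin r → T r → ℝ} {S : T r → T r} (hT : Tw lev D ψ S) : Continuous S := by
  obtain ⟨⟨L, hL0, hL⟩, -, -, -, hS, -, -⟩ := hT
  apply continuous_pi
  intro i
  have h1 : (fun x => S x i) = fun x : T r => x i + (∑ j, D i j • x j) +
      (ψ i x : UnitAddCircle) := funext fun x => hS x i
  rw [h1]
  have h2 : Continuous fun x : T r => ((ψ i x : ℝ) : UnitAddCircle) :=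
    (AddCircle.continuous_mk' (1 : ℝ)).comp (tho_psi_cont hL0 hL i)
  have h3 : Continuous fun x : T r => ∑ j, D i j • x j :=
    continuous_finsetSum _ fun j _ => (continuous_apply j).zsmul (D i j)
  exact ((continuous_apply i).add h3).add h2

theorem tho_sum {r : ℕ} {lev : Fin r → ℕ} {D : Matrix (Fin r) (Fin r) ℤ}
    (hD : ∀ i j, D i j ≠ 0 → lev j < lev i) (i : Fin r) (x y : T r)
    (h : ∀ j, lev j < lev i → x j = y j) : ∑ j, D i j • x j = ∑ j, D i j • y j := by
  apply Finset.sum_congr rfl
  intro j _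
  by_cases h0 : D i j = 0
  · simp [h0]
  · rw [h j (hD i j h0)]

theorem st_THO : ST_THO := by
  intro r lev D ψ S hT
  have hc := tho_cont hT
  obtain ⟨-, -, hdep, hD, hS, -, -⟩ := hT
  have hinj : Function.Injective S := by
    intro x y hxy
    have key : ∀ n : ℕ, ∀ i, lev i = n → x i = y i := by
      intro n
      induction n using Nat.strong_induction_on with
      | _ n ih =>
        intro i hi
        have hlow : ∀ j, lev j < lev i → x j = y j := fun j hj => ih (lev j) (hi ▸ hj) j rfl
        have h1 := congrFun hxy i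
        rw [hS x i, hS y i, tho_sum hD i x y hlow, hdep i x y hlow] at h1
        exact add_right_cancel (add_right_cancel h1)
    funext i
    exact key _ i rfl
  have hsur : Function.Surjective S := by
    intro z
    set G : T r → T r := fun x i => z i - (∑ j, D i j • x j) - (ψ i x : UnitAddCircle) with hG
    have key : ∀ n : ℕ, ∀ i, lev i < n → (G^[n + 1] 0) i = (G^[n] 0) i := by
      intro n
      induction n with
      | zero => intro i hi; omega
      | succ n ih =>
        intro i hi
        have hlow : ∀ j, lev j < lev i → (G^[n + 1] 0) j = (G^[n] 0) j := fun j hj =>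
          ih j (by omega)
        have e1 : G^[n + 1 + 1] 0 = G (G^[n + 1] 0) := Function.iterate_succ_apply' G (n + 1) 0
        have e2 : G^[n + 1] 0 = G (G^[n] 0) := Function.iterate_succ_apply' G n 0
        have e3 : G (G^[n + 1] 0) i = G (G^[n] 0) i := by
          change z i - (∑ j, D i j • (G^[n + 1] 0) j) - (ψ i (G^[n + 1] 0) : UnitAddCircle) =
            z i - (∑ j, D i j • (G^[n] 0) j) - (ψ i (G^[n] 0) : UnitAddCircle)
          rw [tho_sum hD i _ _ hlow, hdep i _ _ hlow]
        exact (congrFun e1 i).trans (e3.trans (congrFun e2 i).symm)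
    set N : ℕ := (Finset.univ.sup lev) + 1 with hN
    have hfix : G (G^[N] 0) = G^[N] 0 := by
      funext i
      have h1 : lev i ≤ Finset.univ.sup lev := Finset.le_sup (Finset.mem_univ i)
      have h2 := key N i (by omega)
      rwa [Function.iterate_succ_apply'] at h2
    refine ⟨G^[N] 0, ?_⟩
    funext i
    rw [hS]
    have h3 := congrFun hfix i
    change z i - (∑ j, D i j • (G^[N] 0) j) - (ψ i (G^[N] 0) : UnitAddCircle) = (G^[N] 0) i at h3
    rw [← h3]
    abel
  refine ⟨Continuous.homeoOfEquivCompactToT2 (f := Equiv.ofBijective S ⟨hinj, hsur⟩) hc, rfl⟩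

end Pool.Agent.Helper16.CZ
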