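import Pool.Agent.Helper93.CZ.THO

open Finset Filter MeasureTheory Topology
open scoped ComplexConjugate InnerProductSpace

namespace Pool.Agent.Helper16.CZ

open Pool.Agent.Helper16.AZ (T E Op mm ST_VDH ST_FPV ST_TLR)
open Pool.Agent.Helper16.BZ (EQ GR PD)
open Pool.Agent.Helper16.MD (MS PB Am RW Rich)
open UnitAddTorus (mFourier)

theorem tmp_mF {r : ℕ} (X : Fin r → ℤ) (w : T r) :
    mFourier X w = ∏ i, fourier (X i) (w i) := rfl

theorem tmp_shift {r : ℕ} (φ : T r → T r) (X : Fin r → ℤ) (s : T r)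
    (h : ∀ w i, X i ≠ 0 → φ (w + s) i = φ w i + s i) (hs : mFourier X s = -1) :
    ∫ w, mFourier X (φ w) ∂(mm r) = 0 := by
  have h1 : ∀ w, mFourier X (φ (w + s)) = -mFourier X (φ w) := by
    intro w
    have h2 : mFourier X (φ (w + s)) = mFourier X (φ w) * mFourier X s := by
      rw [tmp_mF, tmp_mF, tmp_mF, ← Finset.prod_mul_distrib]
      apply Finset.prod_congr rfl
      intro i _
      by_cases h0 : X i = 0
      · simp [h0]
      · rw [h w i h0, fourier_apply, fourier_apply, fourier_apply, smul_add,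
          AddCircle.toCircle_add, Circle.coe_mul]
    rw [h2, hs]
    ring
  have h2 : ∫ w, mFourier X (φ (s + w)) ∂(mm r) = ∫ w, mFourier X (φ w) ∂(mm r) :=
    integral_add_left_eq_self (μ := mm r) (fun w => mFourier X (φ w)) s
  have h3 : ∫ w, mFourier X (φ (s + w)) ∂(mm r) = -∫ w, mFourier X (φ w) ∂(mm r) := by
    rw [← integral_neg]
    apply integral_congr_ae
    filter_upwards with w
    rw [add_comm s w, h1 w]
  have h4 : ∫ w, mFourier X (φ w) ∂(mm r) = -∫ w, mFourier X (φ w) ∂(mm r) := by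
    rw [← h3, h2]
  exact self_eq_neg.mp h4

theorem tmp_sg {r : ℕ} (X : Fin r → ℤ) (j : Fin r) (hj : X j ≠ 0) :
    mFourier X (sg j (1 / (2 * X j))) = -1 := by
  rw [tmp_mF, Finset.prod_eq_single j]
  · rw [sg, Pi.single_eq_same, fourier_coe_apply]
    have h : (X j : ℂ) ≠ 0 := by exact_mod_cast hj
    rw [show (2 * (Real.pi : ℂ) * Complex.I * (X j : ℂ) * ((1 / (2 * (X j : ℝ)) : ℝ) : ℂ) /
      ((1 : ℝ) : ℂ)) = Real.pi * Complex.I by push_cast; field_simp]
    exact Complex.exp_pi_mul_I
  · intro i _ hi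
    rw [sg, Pi.single_eq_of_ne hi]
    simp
  · intro h
    exact absurd (Finset.mem_univ j) h

theorem tmp_cont {r : ℕ} (φ : T r → T r) (hφ : Continuous φ) :
    Continuous (fun F : C(T r, ℂ) => ∫ w, F (φ w) ∂(mm r)) := by
  have hi : ∀ F : C(T r, ℂ), Integrable (fun w => F (φ w)) (mm r) := fun F =>
    (F.continuous.comp hφ).integrable_of_hasCompactSupport (HasCompactSupport.of_compactSpace _)
  have h : LipschitzWith 1 (fun F : C(T r, ℂ) => ∫ w, F (φ w) ∂(mm r)) := by
    apply LipschitzWith.of_dist_le_mul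
    intro F G
    rw [dist_eq_norm, ← integral_sub (hi F) (hi G)]
    have h1 : ∀ᵐ w ∂(mm r), ‖F (φ w) - G (φ w)‖ ≤ dist F G := by
      filter_upwards with w
      rw [← dist_eq_norm]
      exact ContinuousMap.dist_apply_le_dist (φ w)
    have h2 := norm_integral_le_of_norm_le_const h1
    simpa using h2
  exact h.continuous

theorem tmp_int {r : ℕ} (S : T r → T r) (hS : Continuous S)
    (h : ∀ X : Fin r → ℤ, X ≠ 0 → ∫ w, mFourier X (S w) ∂(mm r) = 0) (F : C(T r, ℂ)) :
    ∫ w, F (S w) ∂(mm r) = ∫ w, F w ∂(mm r) := by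
  have hi : ∀ (φ : T r → T r), Continuous φ → ∀ F : C(T r, ℂ),
      Integrable (fun w => F (φ w)) (mm r) := fun φ hφ F =>
    (F.continuous.comp hφ).integrable_of_hasCompactSupport (HasCompactSupport.of_compactSpace _)
  have hX : ∀ X : Fin r → ℤ, ∫ w, mFourier X (S w) ∂(mm r) = ∫ w, mFourier X w ∂(mm r) := by
    intro X
    by_cases h0 : X = 0
    · rw [h0]
      have h1 : ∀ w : T r, mFourier (0 : Fin r → ℤ) w = 1 := fun w => by
        rw [tmp_mF]
        exact Finset.prod_eq_one fun i _ => by simp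
      rw [integral_congr_ae (Eventually.of_forall fun w => h1 (S w)),
        integral_congr_ae (Eventually.of_forall fun w => h1 w)]
    · rw [h X h0]
      obtain ⟨j, hj⟩ := Function.ne_iff.mp h0
      have h1 := tmp_shift (fun w => w) X (sg j (1 / (2 * X j))) (fun w i _ => rfl)
        (tmp_sg X j hj)
      exact h1.symm
  let K : Submodule ℂ C(T r, ℂ) :=
    { carrier := {F | ∫ w, F (S w) ∂(mm r) = ∫ w, F w ∂(mm r)}
      add_mem' := by
        intro F G hF hG
        change ∫ w, (F (S w) + G (S w)) ∂(mm r) = ∫ w, (F w + G w) ∂(mm r)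
        have e1 : Integrable (fun w => F w) (mm r) := hi id continuous_id F
        have e2 : Integrable (fun w => G w) (mm r) := hi id continuous_id G
        rw [integral_add (hi S hS F) (hi S hS G), integral_add e1 e2]
        exact congrArg₂ _ hF hG
      zero_mem' := by
        change ∫ w, (0 : ℂ) ∂(mm r) = ∫ w, (0 : ℂ) ∂(mm r)
        rfl
      smul_mem' := by
        intro c F hF
        change ∫ w, c • F (S w) ∂(mm r) = ∫ w, c • F w ∂(mm r)
        rw [integral_smul, integral_smul]
        exact congrArg _ hF }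
  have hK : IsClosed (K : Set C(T r, ℂ)) :=
    isClosed_eq (tmp_cont S hS) (tmp_cont id continuous_id)
  have hspan : Submodule.span ℂ (Set.range (mFourier (d := Fin r))) ≤ K := by
    rw [Submodule.span_le]
    rintro _ ⟨X, rfl⟩
    exact hX X
  have h2 := Submodule.topologicalClosure_minimal _ hspan hK
  rw [UnitAddTorus.span_mFourier_closure_eq_top] at h2
  exact h2 (Submodule.mem_top : F ∈ ⊤)

theorem st_TMP : ST_TMP := by
  intro r lev D ψ S hT
  have hc := tho_cont hT
  obtain ⟨-, -, hdep, hD, hS, -, -⟩ := hT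
  have hX : ∀ X : Fin r → ℤ, X ≠ 0 → ∫ w, mFourier X (S w) ∂(mm r) = 0 := by
    intro X h0
    obtain ⟨j1, hj1⟩ := Function.ne_iff.mp h0
    have hne : (Finset.univ.filter fun j => X j ≠ 0).Nonempty := ⟨j1, by simpa using hj1⟩
    obtain ⟨j, hj, hmax⟩ := Finset.exists_max_image _ lev hne
    rw [Finset.mem_filter] at hj
    apply tmp_shift S X (sg j (1 / (2 * X j))) _ (tmp_sg X j hj.2)
    intro w i hi
    have hli : lev i ≤ lev j := hmax i (by simpa using hi)
    have hlow : ∀ j', lev j' < lev i → (w + sg j (1 / (2 * X j))) j' = w j' := by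
      intro j' hj'
      have h1 : j' ≠ j := by
        rintro rfl
        omega
      rw [Pi.add_apply, sg, Pi.single_eq_of_ne h1, add_zero]
    rw [hS, hS, tho_sum hD i _ _ hlow, hdep i _ _ hlow, Pi.add_apply]
    abel
  refine ⟨hc.measurable, ?_⟩
  have : IsProbabilityMeasure (Measure.map S (mm r)) :=
    Measure.isProbabilityMeasure_map hc.measurable.aemeasurable
  apply ext_of_forall_integral_eq_of_IsFiniteMeasure
  intro f
  have hf : ∫ w, f w ∂(Measure.map S (mm r)) = ∫ w, f (S w) ∂(mm r) :=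
    integral_map hc.measurable.aemeasurable f.continuous.aestronglyMeasurable
  rw [hf]
  let F : C(T r, ℂ) := ⟨fun w => ((f w : ℝ) : ℂ), Complex.continuous_ofReal.comp f.continuous⟩
  have h := tmp_int S hc hX F
  have h1 : ∫ w, F (S w) ∂(mm r) = ((∫ w, f (S w) ∂(mm r) : ℝ) : ℂ) :=
    integral_ofReal (f := fun w => f (S w))
  have h2 : ∫ w, F w ∂(mm r) = ((∫ w, f w ∂(mm r) : ℝ) : ℂ) := integral_ofReal (f := fun w => f w)
  rw [h1, h2] at h
  exact_mod_cast h

end Pool.Agent.Helper16.CZ
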